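import Pool.Agent.Q275.GQ.Fin
import Pool.Agent.Q92.GQ.Key
import Pool.Agent.Q110.GQ.MIN
import Pool.Agent.Q94.GQ.CONTR
import Pool.Agent.Q178.GQ.Arith
import Pool.Agent.Q178.GQ.Nomin
import Pool.Agent.Q130.GQ.SHIFT
import Pool.Agent.Q94.GQ.RUN
import Pool.Agent.Q110.GQ.BAD
import Pool.Agent.Q58.GQ.Weyl
import Pool.Agent.Q231.GQ.BOX
import Pool.Agent.Q178.GQ.Eqd
import Pool.Agent.Q58.GQ.Seq
import Pool.Agent.Q110.GQ.FRU
import Pool.Agent.Q113.GQ.Lim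
import Pool.Agent.Q151.GQ.CNT
import Pool.Agent.Q151.GQ.DR
import Pool.Agent.Q151.GQ.STAT
import Pool.Agent.Q154.GQ.NC

/-! Project GQ: all jobs together. -/

set_option autoImplicit false

namespace Pool.Agent.Q275.GQ

theorem t_CONTR : S_CONTR := by exact Pool.Agent.Q94.GQ.contr
theorem t_NOMIN : S_NOMIN := Pool.Agent.Q178.GQ.nomin t_CONTR Pool.Agent.Q178.GQ.arith
theorem t_MIN : S_MIN := Pool.Agent.Q110.GQ.min Pool.Agent.Q151.GQ.stat Pool.Agent.Q275.GQ.Key.key Pool.Agent.Q154.GQ.nc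
theorem t_ABS : S_ABS := abs_of t_MIN t_NOMIN
theorem t_CNT : S_CNT := Pool.Agent.Q151.GQ.cnt Pool.Agent.Q130.GQ.shift
theorem t_BAD : S_BAD :=
  Pool.Agent.Q110.GQ.bad Pool.Agent.Q94.GQ.run_eq Pool.Agent.Q151.GQ.dr (Pool.Agent.Q151.GQ.abw t_ABS) t_CNT
theorem t_EQ : S_EQ := Pool.Agent.Q178.GQ.eqd Pool.Agent.Q58.GQ.weyl Pool.Agent.Q231.GQ.box_eq
theorem t_MAIN : S_MAIN :=
  main t_EQ Pool.Agent.Q58.GQ.seq (Pool.Agent.Q110.GQ.FR.fru (Pool.Agent.Q151.GQ.cw t_CNT) t_BAD)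
    Pool.Agent.Q113.GQ.lim

end Pool.Agent.Q275.GQ
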