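import Mathlib

/-!
# Project GQ: non-real quadratic bases, basic definitions

`α` is a non-real root of `a2 X^2 + a1 X + a0`, `a2 > 0`, coprime coefficients, `|α| > 1`.
The lattice `Λ = a2 ℤ + (a2 α + a1) ℤ` is parametrised by `ℤ × ℤ` by means of `val`.
-/

set_option autoImplicit false

namespace Pool.Agent.Q275.GQ

open Finset Filter Topology MeasureTheory

/-- The parameters: a non-real quadratic number `α` with `|α| > 1` and its primitive polynomial. -/
structure Par where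
  a0 : ℤ
  a1 : ℤ
  a2 : ℤ
  α : ℂ
  h2 : 0 < a2
  cop : ∀ p : ℕ, p.Prime → (p : ℤ) ∣ a0 → (p : ℤ) ∣ a1 → ¬ (p : ℤ) ∣ a2
  root : (a2 : ℂ) * α ^ 2 + a1 * α + a0 = 0
  nr : α.im ≠ 0
  gt : 1 < ‖α‖

/-- `e x = exp (2 π i x)`. -/
noncomputable def e (x : ℝ) : ℂ := Complex.exp (2 * Real.pi * Complex.I * x)

/-- The element of `Λ` with the coordinates `n`. -/
noncomputable def val (P : Par) (n : ℤ × ℤ) : ℂ := n.1 * P.a2 + n.2 * (P.a2 * P.α + P.a1)

/-- The last digit of `n`. -/
def dig (P : Par) (n : ℤ × ℤ) : ℤ := (P.a1 * n.2 + P.a2 * n.1) % P.a0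

/-- The ancestor of `n`: `val n = dig n + α * val (A n)`. -/
def A (P : Par) (n : ℤ × ℤ) : ℤ × ℤ := (n.2, -((P.a1 * n.2 + P.a2 * n.1) / P.a0))

/-- The second successor of a difference `c` (the first one is `A c`). -/
def B (P : Par) (n : ℤ × ℤ) : ℤ × ℤ := (n.2, -((P.a1 * n.2 + P.a2 * n.1) / P.a0) - 1)

/-- The box of the residues modulo `a0 ^ K`. -/
noncomputable def box (P : Par) (K : ℕ) : Finset (ℤ × ℤ) := Ico 0 (P.a0 ^ K) ×ˢ Ico 0 (P.a0 ^ K)

/-- The set of differences `C` is closed under the successors. -/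
def Cl (P : Par) (C : Finset (ℤ × ℤ)) : Prop := ∀ c ∈ C, A P c ∈ C ∧ (dig P c ≠ 0 → B P c ∈ C)

variable (P : Par)

theorem Par.re_eq : (P.a1 : ℝ) = -2 * P.a2 * P.α.re := by
  have h := congrArg Complex.im P.root
  simp [pow_two] at h
  have h1 : P.α.im * ((P.a1 : ℝ) + 2 * P.a2 * P.α.re) = 0 := by linarith
  rcases mul_eq_zero.1 h1 with h | h
  · exact absurd h P.nr
  · linarith

theorem Par.a0_eq : (P.a0 : ℝ) = P.a2 * ‖P.α‖ ^ 2 := by
  have h := congrArg Complex.re P.root
  simp [pow_two] at h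
  have h1 := P.re_eq
  rw [← Complex.normSq_eq_norm_sq, Complex.normSq_apply]
  rw [h1] at h
  nlinarith

theorem Par.a2_pos : (0 : ℝ) < P.a2 := by exact_mod_cast P.h2

theorem Par.lt : P.a2 < P.a0 := by
  have h1 := P.a0_eq
  have h2 := P.a2_pos
  have h3 : (1 : ℝ) < ‖P.α‖ ^ 2 := by nlinarith [P.gt]
  have : (P.a2 : ℝ) < P.a0 := by rw [h1]; nlinarith
  exact_mod_cast this

theorem Par.a0_pos : 0 < P.a0 := P.h2.trans P.lt

theorem Par.two_le : 2 ≤ P.a0 := by have := P.lt; have := P.h2; omega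

theorem Par.disc : P.a1 ^ 2 < 4 * P.a0 * P.a2 := by
  have h1 := P.re_eq
  have h2 := P.a0_eq
  rw [← Complex.normSq_eq_norm_sq, Complex.normSq_apply] at h2
  have h3 : 0 < P.α.im * P.α.im := mul_self_pos.2 P.nr
  have h4 := P.a2_pos
  have : (P.a1 : ℝ) ^ 2 < 4 * P.a0 * P.a2 := by
    rw [h1, h2]
    nlinarith [mul_pos (mul_pos h4 h4) h3]
  exact_mod_cast this

theorem Par.α_ne : P.α ≠ 0 := by
  intro h
  have := P.gt
  rw [h] at this
  simp at this
  linarith

theorem dig_nonneg (n : ℤ × ℤ) : 0 ≤ dig P n := Int.emod_nonneg _ P.a0_pos.ne'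

theorem dig_lt (n : ℤ × ℤ) : dig P n < P.a0 := Int.emod_lt_of_pos _ P.a0_pos

theorem A_spec (n : ℤ × ℤ) : P.a0 * (A P n).2 + P.a1 * n.2 + P.a2 * n.1 = dig P n := by
  have h := Int.emod_add_mul_ediv (P.a1 * n.2 + P.a2 * n.1) P.a0
  simp only [A, dig]
  linarith

/-- (VAL) `val n = dig n + α * val (A n)`. -/
theorem val_eq (n : ℤ × ℤ) : val P n = dig P n + P.α * val P (A P n) := by
  have h := A_spec P n
  have h' : ((P.a0 : ℂ)) * ((A P n).2 : ℂ) + P.a1 * n.2 + P.a2 * n.1 = dig P n := by exact_mod_cast h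
  have h1 : (A P n).1 = n.2 := rfl
  have hr := P.root
  simp only [val, h1]
  rw [← h']
  linear_combination (-((A P n).2 : ℂ)) * hr

theorem val_add (m n : ℤ × ℤ) : val P (m + n) = val P m + val P n := by
  simp only [val, Prod.fst_add, Prod.snd_add]; push_cast; ring

theorem val_inj {m n : ℤ × ℤ} (h : val P m = val P n) : m = n := by
  have h1 := congrArg Complex.im h
  have h2 := congrArg Complex.re h
  simp [val] at h1 h2
  have h3 := P.nr
  have h4 := P.h2.ne'
  have h5 : m.2 = n.2 := by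
    rcases h1 with h1 | h1
    · exact_mod_cast h1
    · rcases h1 with h1 | h1
      · exact absurd (by exact_mod_cast h1) h4
      · exact absurd h1 h3
  have h6 : m.1 = n.1 := by
    rw [h5] at h2
    have : ((m.1 : ℝ) - n.1) * P.a2 = 0 := by linarith
    rcases mul_eq_zero.1 this with h | h
    · have : (m.1 : ℝ) = n.1 := by linarith
      exact_mod_cast this
    · exact absurd (by exact_mod_cast h) h4
  exact Prod.ext h6 h5

/-- (UNI) If `val m = d + α * val n` with a digit `d` then `d = dig m` and `n = A m`. -/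
theorem unique {m n : ℤ × ℤ} {d : ℤ} (h0 : 0 ≤ d) (h1 : d < P.a0)
    (h : val P m = d + P.α * val P n) : dig P m = d ∧ A P m = n := by
  have hr := P.root
  have h2 : val P m - d = n.1 * P.a2 * P.α - n.2 * P.a0 := by
    rw [h]; simp only [val]; linear_combination (n.2 : ℂ) * hr
  have h3 := congrArg Complex.im h2
  have h4 := congrArg Complex.re h2
  simp [val] at h3 h4
  have h5 : m.2 = n.1 := by
    have : ((m.2 : ℝ) - n.1) * (P.a2 * P.α.im) = 0 := by linarith
    rcases mul_eq_zero.1 this with h | h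
    · have : (m.2 : ℝ) = n.1 := by linarith
      exact_mod_cast this
    · rcases mul_eq_zero.1 h with h | h
      · exact absurd (by exact_mod_cast h) P.h2.ne'
      · exact absurd h P.nr
  rw [h5] at h4
  have h6 : P.a0 * n.2 + P.a1 * n.1 + P.a2 * m.1 = d := by
    have : ((P.a0 : ℝ)) * n.2 + P.a1 * n.1 + P.a2 * m.1 = d := by linarith
    exact_mod_cast this
  have h7 : P.a1 * m.2 + P.a2 * m.1 = d + P.a0 * (-n.2) := by rw [h5]; linarith
  constructor
  · simp only [dig]
    rw [h7, Int.add_mul_emod_self_left, Int.emod_eq_of_lt h0 h1]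
  · refine Prod.ext h5 ?_
    simp only [A]
    rw [h7, Int.add_mul_ediv_left _ _ P.a0_pos.ne', Int.ediv_eq_zero_of_lt h0 h1]
    ring

/-- The linear part of `A` on the multiples of `a0`. -/
def LL (u : ℤ × ℤ) : ℤ × ℤ := (P.a0 * u.2, -(P.a1 * u.2 + P.a2 * u.1))

/-- (PER) Translation by `a0 ^ K u`. -/
theorem iter_add (K : ℕ) (M u : ℤ × ℤ) :
    (A P)^[K] (M + (P.a0 ^ K * u.1, P.a0 ^ K * u.2)) = (A P)^[K] M + (LL P)^[K] u := by
  induction K generalizing M u with
  | zero => simp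
  | succ K ih =>
    rw [Function.iterate_succ_apply, Function.iterate_succ_apply, Function.iterate_succ_apply,
      ← ih]
    congr 1
    refine Prod.ext ?_ ?_
    · simp only [A, LL, Prod.fst_add, Prod.snd_add]; ring
    · simp only [A, LL, Prod.fst_add, Prod.snd_add]
      have : P.a1 * (M.2 + P.a0 ^ (K + 1) * u.2) + P.a2 * (M.1 + P.a0 ^ (K + 1) * u.1) =
          P.a1 * M.2 + P.a2 * M.1 + P.a0 * (P.a0 ^ K * (P.a1 * u.2 + P.a2 * u.1)) := by ring
      rw [this, Int.add_mul_ediv_left _ _ P.a0_pos.ne']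
      ring

/-- (PER') The first `K` digits do not change under translation by multiples of `a0 ^ K`. -/
theorem dig_add {K i : ℕ} (hi : i < K) (M u : ℤ × ℤ) :
    dig P ((A P)^[i] (M + (P.a0 ^ K * u.1, P.a0 ^ K * u.2))) = dig P ((A P)^[i] M) := by
  obtain ⟨j, rfl⟩ := Nat.exists_eq_add_of_lt hi
  have h : (P.a0 ^ (i + j + 1) * u.1, P.a0 ^ (i + j + 1) * u.2) =
      (P.a0 ^ i * (P.a0 ^ (j + 1) * u.1, P.a0 ^ (j + 1) * u.2).1,
        P.a0 ^ i * (P.a0 ^ (j + 1) * u.1, P.a0 ^ (j + 1) * u.2).2) := by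
    refine Prod.ext ?_ ?_ <;> simp only <;> ring
  rw [h, iter_add]
  have h2 : ∀ (i : ℕ) (w : ℤ × ℤ), (LL P)^[i] (P.a0 * w.1, P.a0 * w.2) =
      (P.a0 * ((LL P)^[i] w).1, P.a0 * ((LL P)^[i] w).2) := by
    intro i
    induction i with
    | zero => intro w; rfl
    | succ i ih =>
      intro w
      rw [Function.iterate_succ_apply, Function.iterate_succ_apply, ← ih]
      congr 1
      refine Prod.ext ?_ ?_ <;> simp only [LL] <;> ring
  have h3 : (P.a0 ^ (j + 1) * u.1, P.a0 ^ (j + 1) * u.2) =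
      (P.a0 * (P.a0 ^ j * u.1, P.a0 ^ j * u.2).1, P.a0 * (P.a0 ^ j * u.1, P.a0 ^ j * u.2).2) := by
    refine Prod.ext ?_ ?_ <;> simp only <;> ring
  rw [h3, h2]
  simp only [dig, Prod.fst_add, Prod.snd_add]
  have : P.a1 * (((A P)^[i] M).2 + P.a0 * ((LL P)^[i] (P.a0 ^ j * u.1, P.a0 ^ j * u.2)).2) +
      P.a2 * (((A P)^[i] M).1 + P.a0 * ((LL P)^[i] (P.a0 ^ j * u.1, P.a0 ^ j * u.2)).1) =
      P.a1 * ((A P)^[i] M).2 + P.a2 * ((A P)^[i] M).1 +
        P.a0 * (P.a1 * ((LL P)^[i] (P.a0 ^ j * u.1, P.a0 ^ j * u.2)).2 +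
          P.a2 * ((LL P)^[i] (P.a0 ^ j * u.1, P.a0 ^ j * u.2)).1) := by ring
  rw [this, Int.add_mul_emod_self_left]

/-- (DIF) The difference of the ancestors: for the base point `M` and the difference `c`, the new
difference is `(c.2, z)` with `a0 z + a1 c.2 + a2 c.1 = dig (M + c) - dig M`. -/
theorem dif (M c : ℤ × ℤ) : (A P (M + c) - A P M).1 = c.2 ∧
    P.a0 * (A P (M + c) - A P M).2 + P.a1 * c.2 + P.a2 * c.1 = dig P (M + c) - dig P M := by
  have h1 := A_spec P (M + c)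
  have h2 := A_spec P M
  constructor
  · simp [A]
  · simp only [Prod.snd_sub, Prod.fst_add, Prod.snd_add] at *
    linarith

/-- (DIF1) If the digit `d` of `M` satisfies `d + dig c < a0` then the new difference is `A c`. -/
theorem dif_A {M c : ℤ × ℤ} (h : dig P M + dig P c < P.a0) : A P (M + c) = A P M + A P c := by
  have h1 : P.a1 * (M + c).2 + P.a2 * (M + c).1 = dig P M + dig P c +
      P.a0 * (-((A P M).2 + (A P c).2)) := by
    have h1 := A_spec P M
    have h2 := A_spec P c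
    simp only [Prod.fst_add, Prod.snd_add]
    linarith
  refine Prod.ext (by simp [A]) ?_
  have h0 := dig_nonneg P M
  have h0' := dig_nonneg P c
  show -((P.a1 * (M + c).2 + P.a2 * (M + c).1) / P.a0) = _
  rw [h1, Int.add_mul_ediv_left _ _ P.a0_pos.ne', Int.ediv_eq_zero_of_lt (by omega) h]
  simp

/-- (DIF2) If the digit `d` of `M` satisfies `a0 ≤ d + dig c` then the new difference is `B c`. -/
theorem dif_B {M c : ℤ × ℤ} (h : P.a0 ≤ dig P M + dig P c) : A P (M + c) = A P M + B P c := by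
  have h1 : P.a1 * (M + c).2 + P.a2 * (M + c).1 = (dig P M + dig P c - P.a0) +
      P.a0 * (-((A P M).2 + (B P c).2)) := by
    have h1 := A_spec P M
    have h2 := A_spec P c
    have h3 : (B P c).2 = (A P c).2 - 1 := rfl
    simp only [Prod.fst_add, Prod.snd_add]
    rw [h3]
    linarith
  refine Prod.ext (by simp [A, B]) ?_
  have h0 := dig_lt P M
  have h0' := dig_lt P c
  show -((P.a1 * (M + c).2 + P.a2 * (M + c).1) / P.a0) = _
  rw [h1, Int.add_mul_ediv_left _ _ P.a0_pos.ne', Int.ediv_eq_zero_of_lt (by omega) (by omega)]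
  simp

end Pool.Agent.Q275.GQ
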