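import Pool.Agent.Q275.GQ.MainA

/-! Project GQ: the final statement in plain terms. -/

set_option autoImplicit false

namespace Pool.Agent.Q275.GQ

open Finset Filter Topology MeasureTheory

/-- The lattice `Λ = a₂ ℤ + (a₂ α + a₁) ℤ`. -/
def Lam (a₁ a₂ : ℤ) (α : ℂ) : Set ℂ := {z | ∃ m n : ℤ, z = m * a₂ + n * (a₂ * α + a₁)}

/-- `(d j)_{j ≤ k}` is an `α`-expansion of `x`: the digits are in `{0, 1, …, |a₀| - 1}`,
`x = ∑_{j ≤ k} d j α ^ j`, and `∑_{m ≤ j ≤ k} d j α ^ (j - m) ∈ Λ` for every `m ≤ k`. -/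
structure IsExpn (a₀ a₁ a₂ : ℤ) (α x : ℂ) (k : ℤ) (d : ℤ → ℕ) : Prop where
  digit : ∀ j ≤ k, (d j : ℤ) < |a₀|
  sum : HasSum (fun n : ℕ => (d (k - n) : ℂ) * α ^ (k - n)) x
  mem : ∀ m ≤ k, ∑ j ∈ Icc m k, (d j : ℂ) * α ^ (j - m) ∈ Lam a₁ a₂ α

theorem fin (hM : S_MAIN) (a₀ a₁ a₂ : ℤ) (α : ℂ) (hα : α.im ≠ 0) (hα1 : 1 < ‖α‖)
    (h0 : (a₂ : ℂ) * α ^ 2 + a₁ * α + a₀ = 0) (h2 : 0 < a₂)
    (hc : ∀ n : ℤ, n ∣ a₀ → n ∣ a₁ → n ∣ a₂ → IsUnit n) :
    ∀ᵐ x : ℂ, ∀ (k : ℤ) (d : ℤ → ℕ), IsExpn a₀ a₁ a₂ α x k d →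
      ∀ (l : ℕ) (w : Fin l → ℕ), (∀ i, (w i : ℤ) < |a₀|) →
        Tendsto (fun n : ℕ => (Nat.card {t : ℕ // t < n ∧ ∀ i : Fin l, d (k - t - (i : ℕ)) = w i} : ℝ) / n)
          atTop (𝓝 (1 / (|a₀| : ℝ) ^ l)) := by
  let P : Par := ⟨a₀, a₁, a₂, α, h2, fun p hp ha0 ha1 ha2 => by
    have h := Int.isUnit_iff.1 (hc p ha0 ha1 ha2)
    have := hp.two_le
    omega, h0, hα, hα1⟩
  have hpos : 0 < a₀ := P.a0_pos
  have habs : |a₀| = a₀ := abs_of_pos hpos
  have habs' : |(a₀ : ℝ)| = a₀ := by rw [← Int.cast_abs, habs]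
  filter_upwards [hM P] with x hx k d hd l w hw
  have hexp : IsExp P x k (fun n => d (k - n)) := by
    refine ⟨fun n => ?_, hd.sum, fun n => ?_⟩
    · have := hd.digit (k - n) (by omega)
      rwa [habs] at this
    · obtain ⟨m, m', h⟩ := hd.mem (k - n) (by omega)
      refine ⟨(m, m'), ?_⟩
      show _ = (m : ℂ) * a₂ + m' * (a₂ * α + a₁)
      rw [← h]
      refine Finset.sum_bij (fun i _ => k - (i : ℤ)) ?_ ?_ ?_ ?_
      · intro i hi
        rw [mem_range] at hi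
        rw [mem_Icc]
        omega
      · intro i _ j _ hij
        have : k - (i : ℤ) = k - j := hij
        omega
      · intro j hj
        rw [mem_Icc] at hj
        refine ⟨(k - j).toNat, ?_, ?_⟩
        · rw [mem_range]
          omega
        · show k - ((k - j).toNat : ℤ) = j
          omega
      · intro i hi
        rw [mem_range] at hi
        have e1 : (k - (i : ℤ)) - (k - n) = ((n - i : ℕ) : ℤ) := by omega
        show (d (k - (i : ℤ)) : ℂ) * α ^ (n - i) = _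
        rw [e1, zpow_natCast]
  have h := hx k _ hexp l (fun i => if hi : i < l then w ⟨i, hi⟩ else 0) (fun i hi => by
    have := hw ⟨i, hi⟩
    rw [habs] at this
    simp only [hi, dif_pos]
    exact this)
  rw [habs']
  refine h.congr fun n => ?_
  congr 2
  rw [← Nat.card_eq_finsetCard]
  refine Nat.card_congr (Equiv.subtypeEquivRight fun t => ?_)
  rw [mem_filter, mem_range]
  refine and_congr_right fun _ => ?_
  constructor
  · intro h i
    have h' := h i i.2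
    simp only [i.2, dif_pos] at h'
    rw [← h']
    congr 1
    push_cast
    ring
  · intro h i hi
    have h' := h ⟨i, hi⟩
    simp only [hi, dif_pos]
    rw [← h']
    congr 1
    push_cast
    ring

end Pool.Agent.Q275.GQ
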