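import Pool.Agent.Q275.GQ.Stm2

/-! Project GQ: the final assembly. -/

set_option autoImplicit false

namespace Pool.Agent.Q275.GQ

open Finset Filter Topology MeasureTheory
open scoped Classical

/-- multiplication by a nonzero complex number preserves null sets -/
theorem ae_mul {p : ℂ → Prop} (h : ∀ᵐ x : ℂ, p x) {c : ℂ} (hc : c ≠ 0) : ∀ᵐ x : ℂ, p (c * x) := by
  have hq : Measure.QuasiMeasurePreserving (fun x : ℂ => c * x) volume volume := by
    let f : ℂ →ₗ[ℝ] ℂ := LinearMap.mulLeft ℝ c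
    have hf : LinearMap.det f ≠ 0 := by
      have hinj : Function.Injective f := fun x y h => mul_left_cancel₀ hc h
      have hu : IsUnit (LinearMap.det f) := by
        have : LinearMap.ker f = ⊥ := LinearMap.ker_eq_bot.2 hinj
        exact (LinearEquiv.ofInjectiveEndo f hinj).isUnit_det'
      exact hu.ne_zero
    exact MeasureTheory.Measure.LinearMap.quasiMeasurePreserving volume f hf
  exact hq.ae h

theorem main (hEQ : S_EQ) (hSEQ : S_SEQ) (hFRU : S_FRU) (hLIM : S_LIM) : S_MAIN := by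
  intro P
  have h1 : ∀ᵐ x : ℂ, ∀ k : ℤ, Equi P (P.α ^ (-k) * x) := by
    rw [ae_all_iff]
    intro k
    exact ae_mul (hEQ P) (zpow_ne_zero _ P.α_ne)
  filter_upwards [h1] with x hx k c hc l w hw
  obtain ⟨ν, V, h2, h3, h4⟩ := hSEQ P x k c hc
  have hU := hFRU P _ (hx k) ν V c h2 h3 h4 l
  have hq : ((P.a0.toNat : ℕ) : ℤ) = P.a0 := Int.toNat_of_nonneg P.a0_pos.le
  have hqr : ((P.a0.toNat : ℕ) : ℝ) = P.a0 := by exact_mod_cast hq
  have hlt : ∀ m : ℕ, ((m : ℤ) < P.a0 ↔ m < P.a0.toNat) := by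
    intro m
    rw [← hq]
    exact Nat.cast_lt
  have := hLIM P.a0.toNat (by have := P.a0_pos; omega) c (fun n => (hlt _).1 (hc.dig_lt n)) l
    (fun w hw ε hε => by
      rw [hqr]
      exact hU w (fun i hi => (hlt _).2 (hw i hi)) ε hε) w (fun i hi => (hlt _).1 (hw i hi))
  rw [hqr] at this
  exact this

end Pool.Agent.Q275.GQ
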