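import Pool.Agent.Q275.GQ.Bas

/-!
# Project GQ: the statements (lemma jobs), with complete proofs in the docstrings

Read `Bas.lean` first (all its lemmas are proved). Overview.

Carry chain. Let `M` be a random element of `ℤ × ℤ` (uniform modulo a large power of `a0`); its digits
`dig (A^i M)` are independent and uniform in `{0, …, a0 - 1}` (CNT). Compare `M` and `M + c`: the
difference of the ancestors moves from `c` to `A c` or to `B c` (`dif_A`, `dif_B`). The main point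
is ABS: a finite nonempty set of differences closed under both moves contains `0` (so the carry
dies out almost surely, BAD). ABS is proved by a minimum set of a trigonometric polynomial (MIN) and an
arithmetic argument (NOMIN).
-/

set_option autoImplicit false

namespace Pool.Agent.Q275.GQ

open Finset Filter Topology MeasureTheory
open scoped Classical

/-! ## 1. The carry is absorbed -/

/-- JOB STAT (stationary vector; linear algebra, about 60 lines).
Proof. Let `V = (C → ℝ)` (finite dimensional) and `L : V → V`,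
`(L h) c = (1 - dig c / a0) * h (A c) + (dig c / a0) * h (B c)` (if `dig c = 0` the second coefficient
is `0` and `B c` may lie outside `C`; extend `h` by `0` outside `C`). The constant function `1` satisfies
`L 1 = 1`, so `L - 1` is not injective, hence (finite dimension, `C` nonempty) not surjective; so its
range is a proper subspace and there is a nonzero linear functional `λ` on `V` vanishing on the range
(`Submodule.exists_dual_map_eq_bot_of_lt_top` or `Submodule.exists_le_ker_of_lt_top`). Put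
`π c = λ (indicator of c)` on `C` (and `0` outside). Then `∑ c ∈ C, π c * (L h c - h c) = 0` for all real
`h`; for complex `h` take real and imaginary parts. -/
def S_STAT : Prop := ∀ (P : Par) (C : Finset (ℤ × ℤ)), C.Nonempty → Cl P C →
  ∃ π : ℤ × ℤ → ℝ, (∃ c ∈ C, π c ≠ 0) ∧ ∀ h : ℤ × ℤ → ℂ,
    ∑ c ∈ C, (π c : ℂ) * (((1 - dig P c / P.a0 : ℝ) : ℂ) * h (A P c) +
      ((dig P c / P.a0 : ℝ) : ℂ) * h (B P c)) = ∑ c ∈ C, (π c : ℂ) * h c

/-- The normalised Dirichlet kernel `(1 / a0) ∑_{d < a0} e (d σ)`. -/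
noncomputable def mm (P : Par) (σ : ℝ) : ℂ :=
  (1 / (P.a0 : ℂ)) * ∑ d ∈ range P.a0.toNat, e (d * σ)

/-- JOB KEY (finite Fourier sum, about 100 lines).
Proof. Put `q = a0`, `σ_i = (i - t) / q`. Then `‖mm σ‖² = mm σ * conj (mm σ)
= (1 / q²) ∑_{d, d' < q} e ((d - d') σ)`. So the left side is
`e (y s) (1 / q²) ∑_{d, d'} ∑_{i < q} e ((d - d' + a2 x + a1 y) σ_i)`. For an integer `k`,
`∑_{i < q} e (k σ_i) = e (- k t / q) ∑_{i < q} e (k i / q)` is `q e (-k t / q)` if `q ∣ k` and `0`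
otherwise. Write `a1 y + a2 x = q Z + ρ`, `ρ = dig (x, y)`, `Z = (a1 y + a2 x) / q`; as
`-q < d - d' < q`, `q ∣ d - d' + a2 x + a1 y` iff `d' - d = ρ` (then `k = q Z`, and there are
`q - ρ` such pairs) or `d' - d = ρ - q` (then `k = q (Z + 1)`, and there are `ρ` such pairs; none if
`ρ = 0`). So the left side is `e (y s) (1 / q) ((q - ρ) e (-Z t) + ρ e (-(Z + 1) t))`, and
`(A (x, y)).2 = -Z`, `(B (x, y)).2 = -Z - 1`. -/
def S_KEY : Prop := ∀ (P : Par) (x y : ℤ) (s t : ℝ),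
  ∑ i ∈ range P.a0.toNat, ((‖mm P ((i - t) / P.a0)‖ ^ 2 : ℝ) : ℂ) *
      e (x * (P.a2 * ((i - t) / P.a0)) + y * (s + P.a1 * ((i - t) / P.a0))) =
    ((1 - dig P (x, y) / P.a0 : ℝ) : ℂ) * e ((A P (x, y)).1 * s + (A P (x, y)).2 * t) +
      ((dig P (x, y) / P.a0 : ℝ) : ℂ) * e ((B P (x, y)).1 * s + (B P (x, y)).2 * t)

/-- JOB NC (not constant; about 50 lines).
Proof. The functions `(s, t) ↦ e (c.1 s + c.2 t)`, `c ∈ ℤ × ℤ`, are different homomorphisms from
`Multiplicative (ℝ × ℝ)` to `ℂ`, hence linearly independent (`linearIndependent_monoidHom`); if the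
function `∑ π c e (c.1 s + c.2 t)` were the constant `κ = ∑ π c` then
`∑_{c ∈ C} π c χ_c - κ χ_0 = 0` with `0 ∉ C`, so all `π c = 0`. (Or: average over the points
`(i / Q, j / Q)`, `0 ≤ i, j < Q`, `Q` large.) -/
def S_NC : Prop := ∀ (C : Finset (ℤ × ℤ)) (π : ℤ × ℤ → ℝ), (∃ c ∈ C, π c ≠ 0) → (0, 0) ∉ C →
  ∃ s t : ℝ, ∑ c ∈ C, (π c : ℂ) * e (c.1 * s + c.2 * t) ≠ ∑ c ∈ C, (π c : ℂ)

/-- Multiplication by `1 / α` in the coordinates `(s, t) ↔ s α + t`. -/
noncomputable def T (P : Par) (τ : ℝ × ℝ) : ℝ × ℝ :=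
  (-(P.a2 * τ.2 / P.a0), τ.1 - P.a1 * τ.2 / P.a0)

/-- `E` is closed, nonempty, periodic, does not contain `0`, and contains `T τ` for all `τ ∈ E` whose
second coordinate is not an integer, or is an integer divisible by `a0`. -/
structure IsMin (P : Par) (E : Set (ℝ × ℝ)) : Prop where
  closed : IsClosed E
  nonempty : E.Nonempty
  zero : (0, 0) ∉ E
  per : ∀ τ ∈ E, ∀ m n : ℤ, (τ.1 + m, τ.2 + n) ∈ E
  inv : ∀ τ ∈ E, (∀ j : ℤ, τ.2 = j → P.a0 ∣ j) → T P τ ∈ E

/-- The conclusion of MIN. JOB MIN: prove `theorem min : S_STAT → S_KEY → S_NC → S_MIN`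
(about 150 lines).
Proof. Suppose `0 ∉ C`. Take `π` from STAT and put
`F (s, t) = ∑_{c ∈ C} π c e (c.1 s + c.2 t)`, `w_i (t) = ‖mm ((i - t) / a0)‖² ≥ 0`. By KEY with
`(x, y) = (0, 0)`: `∑_{i < a0} w_i (t) = 1` (`dig = 0`). By KEY for the `c ∈ C` and STAT with
`h c = e (c.1 s + c.2 t)`:
`F (s, t) = ∑_{i < a0} w_i (t) F (a2 σ_i, s + a1 σ_i)`, `σ_i = (i - t) / a0`. (1)
By NC, `F` takes a value different from `F (0, 0)`; so one of the four real functions
`g ∈ {Re F, - Re F, Im F, - Im F}` satisfies `g τ < g 0` for some `τ`. `g` is continuous and periodic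
with respect to `ℤ × ℤ`, so it attains its minimum `μ` over `ℝ × ℝ` (over the compact square
`[0,1]²`), `μ < g 0`, and satisfies (1). Let `E = {τ | g τ = μ}`: closed, nonempty, periodic, `0 ∉ E`.
Let `τ = (s, t) ∈ E` with `t` not an integer or `t` an integer divisible by `a0`. In (1) for `g` all
values on the right are `≥ μ` and the weights have the sum 1, so `w_i (t) (g (…) - μ) = 0` for all
`i`, in particular for `i = 0`, where `σ_0 = -t / a0` and the point is
`(- a2 t / a0, s - a1 t / a0) = T τ`. It remains to see that `mm (-t / a0) ≠ 0`: if `a0 ∣ t` then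
`mm = 1`; otherwise `z = e (-t / a0)` satisfies `z ^ a0 = e (-t) ≠ 1` (`t ∉ ℤ`), so `z ≠ 1` and
`a0 mm = (z ^ a0 - 1) / (z - 1) ≠ 0` (`geom_sum_eq`). -/
def S_MIN : Prop := ∀ (P : Par) (C : Finset (ℤ × ℤ)), C.Nonempty → Cl P C → (0, 0) ∉ C →
  ∃ E, IsMin P E

/-- JOB CONTR (about 40 lines).
Proof. Let `φ (s, t) = s α + t ∈ ℂ`. Then `φ (T τ) = φ τ / α`: indeed
`α φ (T τ) = - (a2 t / a0) α² + (s - a1 t / a0) α = s α - (t / a0) (a2 α² + a1 α) = s α + t`.
So `φ (T^k τ) = φ τ / α ^ k → 0`, and `φ` has the continuous inverse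
`z ↦ (z.im / α.im, z.re - α.re z.im / α.im)`. -/
def S_CONTR : Prop := ∀ (P : Par) (τ : ℝ × ℝ),
  Tendsto (fun k => (T P)^[k] τ) atTop (𝓝 (0, 0))

/-- `T` over the rational numbers. -/
def TQ (P : Par) (τ : ℚ × ℚ) : ℚ × ℚ := (-(P.a2 * τ.2 / P.a0), τ.1 - P.a1 * τ.2 / P.a0)

/-- `(u_k, s_k) = T^k (0, 1)`. -/
def us (P : Par) (k : ℕ) : ℚ × ℚ := (TQ P)^[k] (0, 1)

/-- JOB ARITH (about 120 lines). Let `(u, s) = us k`, `k ≥ 1`.
Proof. (i) By induction `s_k a0 ^ k = ς_k` and `u_k a0 ^ k = -a2 ς_{k-1}` (`k ≥ 1`; `u_0 = 0`) with integers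
`ς_0 = 1`, `ς_1 = -a1`, `ς_{k+1} = - a1 ς_k - a0 a2 ς_{k-1}`. (ii) Put `y = U / v` in lowest terms
(`U = y.num`, `v = y.den`), so `U` is coprime to `v` and to `a0`. From `y s_k = j`:
`U ς_k = j v a0 ^ k`, so `U ∣ j` and `s_k = v (j / U)` is a nonzero INTEGER multiple of `v`; hence
`v ≤ |s_k|`. (iii) If `p ∤ a1`: `ς_k ≡ (-a1) ^ k` modulo `p`, but `ς_k = s_k a0 ^ k` is divisible by `p`
(`k ≥ 1`), a contradiction. So `p ∣ a1`, and `p ∤ a2` (`P.cop`). (iv) The quadratic form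
`Q (u, s) = a2 s² - a1 u s + a0 u²` satisfies `Q (T τ) = (a2 / a0) Q τ` (a direct computation), so
`Q (u_k, s_k) = a2 (a2 / a0) ^ k`. If `u_k = 0` or `padicValRat p u_k ≥ 0` then the left side is
`p`-integral (`s_k` is an integer), whereas `padicValRat p` of the right side is
`- k padicValRat p a0 < 0` since `p ∤ a2`: contradiction. -/
def S_ARITH : Prop := ∀ (P : Par) (p : ℕ), p.Prime → (p : ℤ) ∣ P.a0 → ∀ k : ℕ, 1 ≤ k → ∀ y : ℚ,
  (∀ q : ℕ, q.Prime → (q : ℤ) ∣ P.a0 → ¬ (q : ℤ) ∣ y.num) → ∀ j : ℤ, j ≠ 0 → y * (us P k).2 = j →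
  (y.den : ℚ) ≤ |(us P k).2| ∧ (us P k).1 ≠ 0 ∧ padicValRat p (us P k).1 < 0

/-- The conclusion of NOMIN. JOB NOMIN: prove `theorem nomin : S_CONTR → S_ARITH → S_NOMIN`
(about 150 lines).
Proof. Let `E` be as in `IsMin`. Call `τ` blocked if `τ.2` is an integer not divisible by `a0`.
(1) For every `τ ∈ E` some `T^k τ` is blocked: otherwise all `T^k τ ∈ E`, and they tend to
`0`, so `0 ∈ E` (closed). For the smallest such `k`, `T^k τ ∈ E`.
(2) Let `R = {y : ℝ | (0, y) ∈ E}`. If `τ = (s, t) ∈ E` with `t ∈ ℤ` then `s ∈ R`: `(s, 0) ∈ E` by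
periodicity and `T (s, 0) = (0, s) ∈ E` (`a0 ∣ 0`). By (1) `R` is nonempty. `R` is invariant under
translations by integers and contains no integer (else `0 ∈ E`).
(3) Let `y ∈ R`. `T^k (0, y) = y (u_k, s_k)` with `(u_k, s_k) = us k` (`T` is linear and has rational
coefficients). Let `k` be the smallest index for which `T^k (0, y)` is blocked: `y s_k = j` is an
integer not divisible by `a0` (so `j ≠ 0`), `k ≥ 1` as `y` is not an integer; in particular `s_k ≠ 0`
and `y = j / s_k` is rational. By (2) `y' = y u_k ∈ R`.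
(4) By CONTR there is `S` with `|s_k| ≤ S` for all `k`. Fix a prime `p ∣ a0` (`a0 ≥ 2`). Claim: for all
`n : ℕ` there is a rational `y ∈ R` with `padicValRat p y ≤ -n` whose numerator is coprime to `a0`.
Shift: for rational `y = U / v ∈ R` let `m` be the product of the primes dividing `a0` but not `U`;
then `y + m ∈ R`, the numerator `U + m v` is coprime to `a0` (if `q ∣ a0`, `q ∣ U` then `q ∤ v`,
`q ∤ m`; if `q ∤ U` then `q ∣ m`), and the denominator is still `v`, so
`padicValRat p (y + m) = - padicValNat p v ≤ padicValRat p y`. Start: any `y ∈ R`, shifted: its valuation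
is `≤ 0`. Step: for `y` as in the claim for `n`, (3) and ARITH give `y' = y u_k ∈ R`
with `padicValRat p y' = padicValRat p y + padicValRat p u_k ≤ -n - 1`; shift it.
(5) Contradiction: for `y` in the claim, (3) and ARITH give `p ^ n ≤ y.den ≤ |s_k| ≤ S` (`p ^ n ∣ y.den`
as `padicValRat p y ≤ -n`). For large `n` this is false. -/
def S_NOMIN : Prop := ∀ (P : Par) (E : Set (ℝ × ℝ)), ¬ IsMin P E

/-- The carry is absorbed (from MIN and NOMIN). -/
def S_ABS : Prop := ∀ (P : Par) (C : Finset (ℤ × ℤ)), C.Nonempty → Cl P C → (0, 0) ∈ C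

theorem abs_of (h1 : S_MIN) (h2 : S_NOMIN) : S_ABS := by
  intro P C hC hcl
  by_contra h
  obtain ⟨E, hE⟩ := h1 P C hC hcl h
  exact h2 P E hE

/-! ## 2. The digits are uniformly distributed -/

/-- JOB SHIFT (about 120 lines).
Proof. (1) Homomorphisms: for `h` with an integral sequence `n_0, …, n_{k+1}`, `h = (n_0, n_1)`,
`a0 n_{i+2} + a1 n_{i+1} + a2 n_i = 0` for `i < k`, one gets by induction on `i ≤ k`:
`A^i (M + h) = A^i M + (n_i, n_{i+1})` and the digits with index `i < k` do not change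
(`a1 n_{i+1} + a2 n_i = - a0 n_{i+2}` is divisible by `a0`), and
`dig (A^k (M + h)) = (dig (A^k M) + a1 n_{k+1} + a2 n_k) mod a0`. Such `h` form a group `H_k` on which
`ψ h = a2 n_k + a1 n_{k+1}` is additive; we need `ψ h ≡ 1` modulo `a0` for some `h`.
(2) Let `Δ_0 = 1`, `Δ_1 = a1`, `Δ_{m+2} = a1 Δ_{m+1} - a0 a2 Δ_m`.
First element: `n_{k+1-j} = (-a0) ^ j Δ_{k-j}` for `j ≤ k`, `n_0 = 0`; value
`ψ = a2 n_k + a1 n_{k+1} = - a0 a2 Δ_{k-1} + a1 Δ_k = Δ_{k+1}` (for `k = 0`: `h = (0, 1)`, value `a1`).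
Second element: `n_{k+1} = 0`, `n_{k-j} = (-1) ^ j a2 ^ (k-j) Δ_j`, `0 ≤ j ≤ k`; value `a2 ^ (k+1)`.
(3) `Δ_{k+1} ≡ a1 ^ (k+1)` modulo `a0`; so no prime divides `a0`, `Δ_{k+1}` and `a2 ^ (k+1)`
(`P.cop`), hence an integral combination of the two elements has `ψ ≡ 1` modulo `a0`. -/
def S_SHIFT : Prop := ∀ (P : Par) (k : ℕ), ∃ h : ℤ × ℤ, ∀ M : ℤ × ℤ,
  (∀ i < k, dig P ((A P)^[i] (M + h)) = dig P ((A P)^[i] M)) ∧
    dig P ((A P)^[k] (M + h)) = (dig P ((A P)^[k] M) + 1) % P.a0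

/-- The conclusion of CNT. JOB CNT: prove `theorem cnt : S_SHIFT → S_CNT` (about 120 lines).
Proof. Fix `K` and `Q = a0 ^ K`. For `k ≤ K` let `N_k` be the number of `M ∈ box K` with
`dig (A^i M) = w i` for `i < k`; claim `N_k a0 ^ k = Q²`. Induction: let `k < K` and `h` from SHIFT.
The map `M ↦ (M + h) mod Q` (both coordinates reduced modulo `Q` to `[0, Q)`) is a
bijection of `box K`; by SHIFT and `dig_add` it maps the `M` with the word `w` on `i < k` and
`dig (A^k M) = d` bijectively to those with `dig (A^k M) = (d + 1) % a0`. So the number of `M ∈ box K`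
with word `w` on `i < k` and `dig (A^k M) = d` is the same for all `d ∈ [0, a0)`, and the sum over
`d` is `N_k`. -/
def S_CNT : Prop := ∀ (P : Par) (K : ℕ) (w : ℕ → ℤ), (∀ i, 0 ≤ w i ∧ w i < P.a0) →
  (((box P K).filter (fun M => ∀ i < K, dig P ((A P)^[i] M) = w i)).card : ℤ) = P.a0 ^ K

/-- The conclusion of CW. JOB CW: prove `theorem cw : S_CNT → S_CW` (about 60 lines).
Proof. Apply CNT with `K = j + l`; the `M ∈ box K` with `dig (A^(j+i) M) = w i` for `i < l` are the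
disjoint union, over the `a0 ^ j` words `v : Fin j → [0, a0)`, of the `M` with
`dig (A^i M) = v i` for `i < j` and `dig (A^(j+i) M) = w i` for `i < l`, each of which has `a0 ^ K`
elements. -/
def S_CW : Prop := ∀ (P : Par) (j l : ℕ) (w : ℕ → ℤ), (∀ i, 0 ≤ w i ∧ w i < P.a0) →
  (((box P (j + l)).filter (fun M => ∀ i < l, dig P ((A P)^[j + i] M) = w i)).card : ℤ) =
    P.a0 ^ (j + (j + l))

/-- The conclusion of BAD. JOB BAD: prove `theorem bad : S_ABS → S_CNT → S_BAD` (about 250 lines).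
Proof. (1) For a digit `d ∈ [0, a0)` let `stp c d = A c` if `d + dig c < a0` and `B c` otherwise
(in the second case `dig c ≠ 0`); by `dif_A`, `dif_B`, `A (M + c) = A M + stp c (dig M)`. For a word `w`
let `run c w K` be the result of the digits `w 0, …, w (K-1)`; so
`A^K (M + c) = A^K M + run c w K` if `w i = dig (A^i M)`. `stp 0 d = 0` (`A 0 = 0`, `dig 0 = 0`).
(2) `‖val (A c)‖` and `‖val (B c)‖` are at most `(‖val c‖ + a0) / ‖α‖` (`val_eq`, and
`α val (B c) = α val (A c) - α (a2 α + a1) = val c - dig c + a0` by `P.root`). So for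
`R ≥ a0 / (‖α‖ - 1)` the set `D_R = {c | ‖val c‖ ≤ R}` is closed under `A`, `B`; it is finite
(`val` is an injective linear map on a lattice: `|c.2| ≤ R / (a2 |α.im|)`, then `|c.1|` is bounded).
(3) For every `c ∈ D_R` there is a word `w` and `k` with `run c w k = 0`: the set of the `run c w k`
(all words, all `k`) is nonempty, contained in `D_R` and closed under `A` and `B` (use the digit `d = 0` for
`A`, and `d = a0 - 1` for `B` when `dig ≠ 0`), so it contains `0` by ABS. Let `L ≥ 1` be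
at least all these `k` (`D_R` finite).
(4) Let `b_K (c)` be the number of the words `w ∈ {0, …, a0-1}^K` with `run c w K ≠ 0`, and
`b_K = max_{c ∈ D_R} b_K (c)`. Splitting off the first `L` digits, `b_{K+L} (c) ≤ (a0 ^ L - 1) b_K`, since
at least one of the `a0 ^ L` first parts leads to `0` and `b_K (0) = 0`. Also
`b_{K+1} (c) ≤ a0 b_K`. So `b_K / a0 ^ K` is nonincreasing and tends to `0`.
(5) By CNT (each word belongs to `a0 ^ K` elements of the box) the number in the statement is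
`a0 ^ K b_K (v) ≤ a0 ^ K b_K` where `R ≥ ‖val v‖`. -/
def S_BAD : Prop := ∀ (P : Par) (v : ℤ × ℤ) (ε : ℝ), 0 < ε → ∃ K₀ : ℕ, ∀ K : ℕ, K₀ ≤ K →
  (((box P K).filter (fun M => (A P)^[K] (M + v) ≠ (A P)^[K] M)).card : ℝ) ≤
    ε * (P.a0 : ℝ) ^ (2 * K)

/-! ## 3. Equidistribution -/

/-- JOB WEYL (about 200 lines; look in the library for a similar almost everywhere lemma).
Proof. Let `S_N (x) = ∑_{i < N} e (Re (w α^i x))`. It suffices to prove it for almost every `x` in the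
square `B = {x : |x.re| ≤ R, |x.im| ≤ R}` for every `R = 1, 2, …`.
`∫_B |S_N|² = ∑_{i, j < N} ∫_B e (Re (w (α^i - α^j) x)) dx`. For `i = j` the term is `4 R²`. For
`i > j`, `κ = w (α^i - α^j)`, `|κ| ≥ |w| |α|^j (|α|^(i-j) - 1) ≥ |w| (|α|^(i-j) - 1)`, and
`Re (κ x) = κ.re x.re - κ.im x.im`, so the integral is a product of two one-dimensional integrals, each
of absolute value `≤ 2 R`, and one of them is at most `1 / (π |κ.re|)` or `1 / (π |κ.im|)`; so the
product is at most `2 R * √2 / (π |κ|) ≤ 2 R / |κ|`. As `∑_{m ≥ 1} 1 / (|α|^m - 1) < ∞` one gets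
`∫_B |S_N|² ≤ C N`. So `∑_k ∫_B |S_{k²} / k²|² < ∞`, and `S_{k²} / k² → 0` almost everywhere
on `B` (`MeasureTheory.lintegral_tsum`, the sum is finite a.e.). For `k² ≤ N < (k+1)²`:
`|S_N| ≤ |S_{k²}| + 2 k`. -/
def S_WEYL : Prop := ∀ α : ℂ, 1 < ‖α‖ → ∀ w : ℂ, w ≠ 0 → ∀ᵐ x : ℂ,
  Tendsto (fun N : ℕ => (∑ i ∈ range N, e ((w * α ^ i * x).re)) / N) atTop (𝓝 0)

/-- JOB BOX (Weyl criterion on the torus, boxes; about 200 lines; look in the library first).
Proof. By linearity and the density of the trigonometric polynomials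
(`UnitAddTorus`: `span_mFourier_closure_eq_top`, or products of one-dimensional
`span_fourier_closure_eq_top`), for all continuous `1`-periodic `f, g : ℝ → ℝ` the averages of
`f (u i) g (v i)` tend to `∫_0^1 f ∫_0^1 g`. It suffices to prove the upper bound
`limsup ≤ 1 / Q²` for each of the `Q²` boxes (they are disjoint and cover everything, so the
frequencies have the sum `1`). Upper bound: `0 ≤ 1_[a/Q, (a+1)/Q) ≤ f` with `f` continuous, periodic and
`∫ f ≤ 1 / Q + δ` (a trapezoid), the same for `b`. -/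
def S_BOX : Prop := ∀ u v : ℕ → ℝ, (∀ m n : ℤ, (m, n) ≠ (0, 0) →
    Tendsto (fun N : ℕ => (∑ i ∈ range N, e (m * u i + n * v i)) / N) atTop (𝓝 0)) →
  ∀ Q : ℕ, 0 < Q → ∀ a b : ℕ, a < Q → b < Q →
    Tendsto (fun N : ℕ => (((range N).filter (fun i =>
      ⌊Q * Int.fract (u i)⌋ = (a : ℤ) ∧ ⌊Q * Int.fract (v i)⌋ = (b : ℤ))).card : ℝ) / N) atTop
      (𝓝 (1 / (Q : ℝ) ^ 2))

/-- The coordinates of `z` with respect to the basis `a2`, `a2 α + a1` of `Λ`. -/
noncomputable def c1 (P : Par) (z : ℂ) : ℝ := z.im / (P.a2 * P.α.im)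

/-- The coordinates of `z` with respect to the basis `a2`, `a2 α + a1` of `Λ`. -/
noncomputable def c0 (P : Par) (z : ℂ) : ℝ :=
  (z.re - c1 P z * (P.a2 * P.α.re + P.a1)) / P.a2

/-- The integral parts of the coordinates. -/
noncomputable def M0 (P : Par) (z : ℂ) : ℤ × ℤ := (⌊c0 P z⌋, ⌊c1 P z⌋)

/-- The conclusion of EQ. JOB EQ: prove `theorem eqd : S_WEYL → S_BOX → S_EQ` (about 150 lines).
Proof. `z ↦ (m c0 z + n c1 z) / Q` is a real linear functional on `ℂ`, hence `= Re (w z)` for some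
`w`, and `w ≠ 0` if `(m, n) ≠ (0, 0)` (`c0`, `c1` are linearly independent: `c0 a2 = 1`, `c1 a2 = 0`,
`c1 (a2 α + a1) = 1`, `c0 (a2 α + a1) = 0`). So by WEYL, for almost every `x`, for all `Q ≥ 1` and all
`(m, n) ≠ (0, 0)` (countably many), the averages of `e (m u_i + n v_i)` with
`u_i = c0 (α^i x) / Q`, `v_i = c1 (α^i x) / Q` tend to `0`. Apply BOX; note
`⌊Q * fract (r / Q)⌋ = ⌊r⌋ % Q` for real `r`. Sum over the elements `(a, b)` of
`[0, Q)²` in the periodic set `Z`. -/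
def S_EQ : Prop := ∀ P : Par, ∀ᵐ x : ℂ, ∀ Q : ℕ, 0 < Q → ∀ Z : Set (ℤ × ℤ),
  (∀ m : ℤ × ℤ, m ∈ Z ↔ (m.1 % Q, m.2 % Q) ∈ Z) →
    Tendsto (fun N : ℕ => (((range N).filter (fun i => M0 P (P.α ^ i * x) ∈ Z)).card : ℝ) / N) atTop
      (𝓝 (((Ico (0 : ℤ) Q ×ˢ Ico (0 : ℤ) Q).filter (fun m => m ∈ Z)).card / (Q : ℝ) ^ 2))

end Pool.Agent.Q275.GQ
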