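import Pool.Agent.Q275.GQ.Stm

/-!
# Project GQ: statements for the assembly (with complete proofs in the docstrings)
-/

set_option autoImplicit false

namespace Pool.Agent.Q275.GQ

open Finset Filter Topology MeasureTheory
open scoped Classical

/-- The successor of the difference `c` for the digit `d` (`dif_A`, `dif_B`). -/
def stp (P : Par) (c : ℤ × ℤ) (d : ℤ) : ℤ × ℤ := if d + dig P c < P.a0 then A P c else B P c

/-- The difference after the digits `w 0, …, w (K - 1)`. -/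
def run (P : Par) (c : ℤ × ℤ) (w : ℕ → ℤ) : ℕ → ℤ × ℤ
  | 0 => c
  | K + 1 => stp P (run P c w K) (w K)

/-- JOB DR (about 60 lines): parts (2) of the proof in the docstring of `S_BAD` (finite sets closed under
`A` and `B`). -/
def S_DR : Prop := ∀ (P : Par) (v : ℤ × ℤ), ∃ D : Finset (ℤ × ℤ), v ∈ D ∧
  ∀ c ∈ D, A P c ∈ D ∧ B P c ∈ D

/-- JOB ABW: prove `theorem abw : S_ABS → S_ABW` (about 50 lines): part (3) of the proof in the docstring of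
`S_BAD`. The set of all `run P c w k` (all words `w` with values in `[0, a0)`, all `k`) is a
nonempty subset of `D` closed under `A` and, where `dig ≠ 0`, under `B`; so it contains `(0, 0)`. -/
def S_ABW : Prop := ∀ (P : Par) (D : Finset (ℤ × ℤ)), (∀ c ∈ D, A P c ∈ D ∧ B P c ∈ D) →
  ∀ c ∈ D, ∃ (w : ℕ → ℤ) (k : ℕ), (∀ i, 0 ≤ w i ∧ w i < P.a0) ∧ run P c w k = (0, 0)

/-- JOB RUN (about 40 lines): part (1) of the proof in the docstring of `S_BAD`. -/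
def S_RUN : Prop := ∀ (P : Par) (M c : ℤ × ℤ) (w : ℕ → ℤ) (K : ℕ),
  (∀ i < K, dig P ((A P)^[i] M) = w i) → (A P)^[K] (M + c) = (A P)^[K] M + run P c w K

/-! JOB BAD: prove `theorem bad : S_RUN → S_DR → S_ABW → S_CNT → S_BAD` (parts (4) and (5) of the
proof in the docstring of `S_BAD`, about 150 lines). -/

/-- `c 0, c 1, c 2, …` (`c n = d_{k-n}`) is an expansion of `x` with the first digit at `α ^ k`. -/
structure IsExp (P : Par) (x : ℂ) (k : ℤ) (c : ℕ → ℕ) : Prop where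
  dig_lt : ∀ n, (c n : ℤ) < P.a0
  sum : HasSum (fun n : ℕ => (c n : ℂ) * P.α ^ (k - n)) x
  mem : ∀ n : ℕ, ∃ m : ℤ × ℤ, ∑ i ∈ range (n + 1), (c i : ℂ) * P.α ^ (n - i) = val P m

/-- JOB SEQ (about 120 lines).
Proof. Choose `ν n` with `val (ν n) = N_n = ∑_{i ≤ n} c_i α^(n-i)` (from `mem`). As
`N_{n+1} = c_{n+1} + α N_n`, `unique` gives `dig (ν (n+1)) = c (n+1)` and `A (ν (n+1)) = ν n`;
`N_0 = c_0 = c_0 + α val (0, 0)`, so `dig (ν 0) = c 0` (`unique` again). Let `z_n = α^n (α^(-k) x)`.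
By `sum`, `α^(-k) x = ∑_i c_i α^(-i)`, so `z_n - N_n = ∑_{i > n} c_i α^(n-i)` has the absolute
value `≤ ∑_{m ≥ 1} a0 |α|^(-m) = a0 / (|α| - 1)`. Also
`z = val (M0 z) + fract (c0 z) a2 + fract (c1 z) (a2 α + a1)` (`z = c0 z * a2 + c1 z * (a2 α + a1)`), so
`‖z - val (M0 z)‖ ≤ a2 + ‖a2 α + a1‖`. So `‖val (ν n - M0 z_n)‖ ≤ R` (`val_add`), and the set `V` of
all `v` with `‖val v‖ ≤ R` is finite (`|v.2| a2 |α.im| = |(val v).im| ≤ R`, then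
`|v.1| a2 ≤ R + |v.2| ‖a2 α + a1‖`). -/
def S_SEQ : Prop := ∀ (P : Par) (x : ℂ) (k : ℤ) (c : ℕ → ℕ), IsExp P x k c →
  ∃ (ν : ℕ → ℤ × ℤ) (V : Finset (ℤ × ℤ)), (∀ n, A P (ν (n + 1)) = ν n) ∧
    (∀ n, dig P (ν n) = c n) ∧ (∀ n, ν n - M0 P (P.α ^ n * (P.α ^ (-k) * x)) ∈ V)

/-- The property of `y` in EQ. -/
def Equi (P : Par) (y : ℂ) : Prop := ∀ Q : ℕ, 0 < Q → ∀ Z : Set (ℤ × ℤ),
  (∀ m : ℤ × ℤ, m ∈ Z ↔ (m.1 % Q, m.2 % Q) ∈ Z) →
    Tendsto (fun N : ℕ => (((range N).filter (fun i => M0 P (P.α ^ i * y) ∈ Z)).card : ℝ) / N) atTop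
      (𝓝 (((Ico (0 : ℤ) Q ×ˢ Ico (0 : ℤ) Q).filter (fun m => m ∈ Z)).card / (Q : ℝ) ^ 2))

/-- The conclusion of FRU (upper bound). JOB FRU: prove `theorem fru : S_CW → S_BAD → S_FRU`
(about 200 lines).
Proof. If `l = 0` the number is `N` and the bound is `(1 + ε) N`. Let `l ≥ 1`, `w' i = w (l - 1 - i)`
for `i < l` (and `w' i = 0` for `i ≥ l`); `w' i ∈ [0, a0)`. Fix `j` (to be chosen by BAD). For `t` let `n = t + l - 1`.
As `A (ν (m+1)) = ν m`: `ν (t + i) = A^(j + (l-1-i)) (ν (n + j))` for `i < l`. So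
`∀ i < l, c (t+i) = w i` means `∀ i < l, dig (A^(j+i) (ν (n+j))) = w' i`. Let
`M = M0 (α^(n+j) y)`, so `ν (n+j) = M + v` with `v ∈ V`. If `A^j (M + v) = A^j M` then
`A^(j+i) (M + v) = A^(j+i) M` for all `i`. So the word occurs at `t` only if
`M ∈ Z0 = {M | ∀ i < l, dig (A^(j+i) M) = w' i}` or `M ∈ Z_v = {M | A^j (M + v) ≠ A^j M}` for some
`v ∈ V`. `Z0` satisfies the periodicity condition of `Equi` with `Q = a0 ^ (j+l)` (`dig_add`), `Z_v`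
with `Q = a0 ^ j` (`iter_add`, for `M` and for `M + v`): `m = (m.1 % Q, m.2 % Q) + (Q (m.1 / Q), Q (m.2 / Q))`.
The number of `t < N` with the word at `t` is thus at most
`#{i < N + l + j : M0 (α^i y) ∈ Z0} + ∑_{v ∈ V} #{i < N + l + j : M0 (α^i y) ∈ Z_v}`.
Divided by `N` this tends to `a0 ^ (2 j + l) / a0 ^ (2 (j + l)) + ∑_{v ∈ V} |box ∩ Z_v| / a0 ^ (2 j)`
`≤ 1 / a0 ^ l + |V| ε'` by CW and BAD (`j` large, `ε' = ε / (2 (|V| + 1))`). -/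
def S_FRU : Prop := ∀ (P : Par) (y : ℂ), Equi P y → ∀ (ν : ℕ → ℤ × ℤ) (V : Finset (ℤ × ℤ))
  (c : ℕ → ℕ), (∀ n, A P (ν (n + 1)) = ν n) → (∀ n, dig P (ν n) = c n) →
  (∀ n, ν n - M0 P (P.α ^ n * y) ∈ V) → ∀ (l : ℕ) (w : ℕ → ℕ), (∀ i < l, (w i : ℤ) < P.a0) →
  ∀ ε : ℝ, 0 < ε → ∃ N₀ : ℕ, ∀ N : ℕ, N₀ ≤ N →
    (((range N).filter (fun t => ∀ i < l, c (t + i) = w i)).card : ℝ) ≤
      (1 / (P.a0 : ℝ) ^ l + ε) * N

/-- JOB LIM (pure counting, about 100 lines): an upper bound for all words gives the limits.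
Proof. For fixed `N` the sets `{t < N : ∀ i < l, c (t+i) = w i}`, over the `q ^ l` words
`w : Fin l → Fin q`, are a partition of `{t < N}` (`c (t + i) < q`), so their cardinalities have the sum `N`.
So for a given word `w` and `N ≥ max N₀` (over the finitely many words; `ε` replaced by `ε / q ^ l`):
`card_w = N - ∑_{w' ≠ w} card_{w'} ≥ N - (q ^ l - 1) (1 / q ^ l + ε / q ^ l) N ≥ (1 / q ^ l - ε) N`. -/
def S_LIM : Prop := ∀ (q : ℕ), 0 < q → ∀ c : ℕ → ℕ, (∀ n, c n < q) → ∀ l : ℕ,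
  (∀ w : ℕ → ℕ, (∀ i < l, w i < q) → ∀ ε : ℝ, 0 < ε → ∃ N₀ : ℕ, ∀ N : ℕ, N₀ ≤ N →
    (((range N).filter (fun t => ∀ i < l, c (t + i) = w i)).card : ℝ) ≤
      (1 / (q : ℝ) ^ l + ε) * N) →
  ∀ w : ℕ → ℕ, (∀ i < l, w i < q) →
    Tendsto (fun N : ℕ => (((range N).filter (fun t => ∀ i < l, c (t + i) = w i)).card : ℝ) / N)
      atTop (𝓝 (1 / (q : ℝ) ^ l))

/-- The final statement (helper275). -/
def S_MAIN : Prop := ∀ P : Par, ∀ᵐ x : ℂ, ∀ (k : ℤ) (c : ℕ → ℕ), IsExp P x k c →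
  ∀ (l : ℕ) (w : ℕ → ℕ), (∀ i < l, (w i : ℤ) < P.a0) →
    Tendsto (fun N : ℕ => (((range N).filter (fun t => ∀ i < l, c (t + i) = w i)).card : ℝ) / N)
      atTop (𝓝 (1 / (P.a0 : ℝ) ^ l))

end Pool.Agent.Q275.GQ
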